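import Mathlib

set_option autoImplicit false

namespace Pool.Agent.Results.MP_0c5bac_gt.Baire

open Set Topology

universe u v

variable {X : Type u} {Y : Type v} [TopologicalSpace X] [TopologicalSpace Y]

/-- A pair `(O, V)` which refines `(O', V')` inside `U`. -/
def Good (f : X → Y) (U : Set X) (p' p : Set Y × Set X) : Prop :=
  IsOpen p.1 ∧ IsOpen p.2 ∧ p.1.Nonempty ∧ p.1 ⊆ p'.1 ∧ p.1 ⊆ f '' p.2 ∧
    closure p.2 ⊆ p'.2 ∩ U

theorem exists_good [RegularSpace X] {f : X → Y} (hf : Continuous f) (ho : IsOpenMap f)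
    {U : Set X} (hU : IsOpen U) (hUd : Dense U) {p' : Set Y × Set X} (hV : IsOpen p'.2)
    (hsub : p'.1 ⊆ f '' p'.2) {P : Set Y} (hP : IsOpen P) (hPne : P.Nonempty) (hPsub : P ⊆ p'.1) :
    ∃ p, Good f U p' p ∧ p.1 ⊆ P := by
  obtain ⟨y, hy⟩ := hPne
  obtain ⟨x, hx, rfl⟩ := hsub (hPsub hy)
  have h1 : IsOpen (f ⁻¹' P ∩ p'.2) := (hP.preimage hf).inter hV
  obtain ⟨z, hz, hzU⟩ := hUd.inter_open_nonempty _ h1 ⟨x, hy, hx⟩
  have h2 : f ⁻¹' P ∩ p'.2 ∩ U ∈ 𝓝 z := (h1.inter hU).mem_nhds ⟨hz, hzU⟩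
  obtain ⟨t, ht, htc, hts⟩ := exists_mem_nhds_isClosed_subset h2
  obtain ⟨V, hVt, hVo, hzV⟩ := mem_nhds_iff.1 ht
  have hcl : closure V ⊆ t := closure_minimal hVt htc
  refine ⟨(f '' V, V), ⟨ho V hVo, hVo, ⟨f z, mem_image_of_mem f hzV⟩, ?_, subset_rfl, ?_⟩, ?_⟩
  · rintro _ ⟨w, hw, rfl⟩
    exact hPsub (hts (hVt hw)).1.1
  · intro w hw
    exact ⟨(hts (hcl hw)).1.2, (hts (hcl hw)).2⟩
  · rintro _ ⟨w, hw, rfl⟩
    exact (hts (hVt hw)).1.1

/-- A maximal disjoint family of good pairs covers a dense subset. -/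
theorem exists_family [RegularSpace X] {f : X → Y} (hf : Continuous f) (ho : IsOpenMap f)
    {U : Set X} (hU : IsOpen U) (hUd : Dense U) {p' : Set Y × Set X} (hO : IsOpen p'.1)
    (hV : IsOpen p'.2) (hsub : p'.1 ⊆ f '' p'.2) :
    ∃ S : Set (Set Y × Set X), (∀ p ∈ S, Good f U p' p) ∧ S.PairwiseDisjoint Prod.fst ∧
      p'.1 ⊆ closure (⋃ p ∈ S, p.1) := by
  obtain ⟨S, hS⟩ := zorn_subset {S : Set (Set Y × Set X) | (∀ p ∈ S, Good f U p' p) ∧
      S.PairwiseDisjoint Prod.fst} (by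
    intro c hc hchain
    refine ⟨⋃₀ c, ⟨?_, ?_⟩, fun s hs => subset_sUnion_of_mem hs⟩
    · rintro p ⟨s, hs, hp⟩
      exact (hc hs).1 p hp
    · exact (Set.pairwiseDisjoint_sUnion hchain.directedOn).2 fun s hs => (hc hs).2)
  refine ⟨S, hS.prop.1, hS.prop.2, ?_⟩
  by_contra hcon
  have hne : (p'.1 ∩ (closure (⋃ p ∈ S, p.1))ᶜ).Nonempty := by
    rw [Set.not_subset] at hcon
    obtain ⟨y, hy, hy'⟩ := hcon
    exact ⟨y, hy, hy'⟩
  obtain ⟨q, hq, hqP⟩ := exists_good hf ho hU hUd hV hsub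
    (hO.inter isClosed_closure.isOpen_compl) hne inter_subset_left
  have hdisj : ∀ p ∈ S, Disjoint p.1 q.1 := by
    intro p hp
    rw [Set.disjoint_left]
    intro y hyp hyq
    exact (hqP hyq).2 (subset_closure (mem_iUnion₂.2 ⟨p, hp, hyp⟩))
  have hmem : insert q S ∈ {S : Set (Set Y × Set X) | (∀ p ∈ S, Good f U p' p) ∧
      S.PairwiseDisjoint Prod.fst} := by
    refine ⟨?_, ?_⟩
    · rintro p (rfl | hp)
      · exact hq
      · exact hS.prop.1 p hp
    · refine hS.prop.2.insert fun p hp _ => (hdisj p hp).symm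
  have hqS : q ∈ S := hS.le_of_ge hmem (subset_insert q S) (mem_insert q S)
  obtain ⟨y, hy⟩ := hq.2.2.1
  exact Set.disjoint_left.1 (hdisj q hqS) hy hy

/-- **Main theorem.** If `f : X → Y` is a continuous open map with compact fibres, `X` is regular
(no separation axiom) and `Y` is a Baire space, then `X` is a Baire space. -/
theorem baire_of_fibres [RegularSpace X] [BaireSpace Y] {f : X → Y} (hf : Continuous f)
    (ho : IsOpenMap f) (hc : ∀ y, IsCompact (f ⁻¹' {y})) : BaireSpace X := by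
  classical
  refine ⟨fun U hUo hUd => ?_⟩
  rw [dense_iff_inter_open]
  intro W hW hWne
  -- choose the families
  have hfam : ∀ (n : ℕ) (p' : Set Y × Set X), ∃ S : Set (Set Y × Set X),
      (∀ p ∈ S, Good f (U n) p' p) ∧ S.PairwiseDisjoint Prod.fst ∧
      (IsOpen p'.1 → IsOpen p'.2 → p'.1 ⊆ f '' p'.2 → p'.1 ⊆ closure (⋃ p ∈ S, p.1)) := by
    intro n p'
    by_cases h : IsOpen p'.1 ∧ IsOpen p'.2 ∧ p'.1 ⊆ f '' p'.2
    · obtain ⟨S, h1, h2, h3⟩ := exists_family hf ho (hUo n) (hUd n) h.1 h.2.1 h.2.2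
      exact ⟨S, h1, h2, fun _ _ _ => h3⟩
    · exact ⟨∅, by simp, by simp, fun a b c => absurd ⟨a, b, c⟩ h⟩
  choose F hF1 hF2 hF3 using hfam
  let T : ℕ → Set (Set Y × Set X) := fun n => Nat.rec {(f '' W, W)}
    (fun n S => ⋃ p' ∈ S, F n p') n
  have hT0 : T 0 = {(f '' W, W)} := rfl
  have hTs : ∀ n, T (n + 1) = ⋃ p' ∈ T n, F n p' := fun n => rfl
  have hprop : ∀ n, ∀ p ∈ T n, IsOpen p.1 ∧ IsOpen p.2 ∧ p.1 ⊆ f '' p.2 := by
    intro n
    cases n with
    | zero =>
      intro p hp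
      rw [hT0, mem_singleton_iff] at hp
      subst hp
      exact ⟨ho W hW, hW, subset_rfl⟩
    | succ n =>
      intro p hp
      rw [hTs] at hp
      obtain ⟨p', _, hp2⟩ := mem_iUnion₂.1 hp
      obtain ⟨a, b, _, _, e, _⟩ := hF1 n p' p hp2
      exact ⟨a, b, e⟩
  have hdisj : ∀ n, (T n).PairwiseDisjoint Prod.fst := by
    intro n
    induction n with
    | zero => rw [hT0]; exact Set.pairwiseDisjoint_singleton _ _
    | succ n ih =>
      rw [hTs]
      intro p hp q hq hpq
      obtain ⟨p', hp', hp2⟩ := mem_iUnion₂.1 hp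
      obtain ⟨q', hq', hq2⟩ := mem_iUnion₂.1 hq
      by_cases h : p' = q'
      · subst h
        exact hF2 n p' hp2 hq2 hpq
      · have := ih hp' hq' h
        exact Disjoint.mono (hF1 n p' p hp2).2.2.2.1 (hF1 n q' q hq2).2.2.2.1 this
  have hdense : ∀ n, f '' W ⊆ closure (⋃ p ∈ T n, p.1) := by
    intro n
    induction n with
    | zero =>
      rw [hT0]
      simp only [mem_singleton_iff, iUnion_iUnion_eq_left]
      exact subset_closure
    | succ n ih =>
      refine ih.trans (closure_minimal ?_ isClosed_closure)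
      refine iUnion₂_subset fun p hp => ?_
      obtain ⟨a, b, c⟩ := hprop n p hp
      refine (hF3 n p a b c).trans (closure_mono ?_)
      refine iUnion₂_subset fun q hq => ?_
      have : q ∈ T (n + 1) := by
        rw [hTs]; exact mem_iUnion₂.2 ⟨p, hp, hq⟩
      exact subset_iUnion₂_of_subset q this subset_rfl
  -- apply the Baire property
  have hopen : ∀ n, IsOpen ((⋃ p ∈ T n, p.1) ∪ (closure (f '' W))ᶜ) := fun n =>
    (isOpen_biUnion fun p hp => (hprop n p hp).1).union isClosed_closure.isOpen_compl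
  have hdense' : ∀ n, Dense ((⋃ p ∈ T n, p.1) ∪ (closure (f '' W))ᶜ) := by
    intro n y
    rw [closure_union]
    by_cases hy : y ∈ closure (f '' W)
    · left
      exact closure_minimal (hdense n) isClosed_closure hy
    · right
      exact subset_closure hy
  obtain ⟨y, hyW, hyn⟩ := (BaireSpace.baire_property _ hopen hdense').inter_open_nonempty
    (f '' W) (ho W hW) (hWne.image f)
  have hy : ∀ n, ∃ p ∈ T n, y ∈ p.1 := by
    intro n
    rcases mem_iInter.1 hyn n with h | h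
    · obtain ⟨p, hp, hyp⟩ := mem_iUnion₂.1 h
      exact ⟨p, hp, hyp⟩
    · exact absurd (subset_closure hyW) h
  choose p hpT hyp using hy
  have hstep : ∀ n, Good f (U n) (p n) (p (n + 1)) := by
    intro n
    have h := hpT (n + 1)
    rw [hTs] at h
    obtain ⟨p', hp', hp2⟩ := mem_iUnion₂.1 h
    have hg := hF1 n p' _ hp2
    have hy' : y ∈ p'.1 := hg.2.2.2.1 (hyp (n + 1))
    have : p' = p n := by
      by_contra hne
      exact Set.disjoint_left.1 (hdisj n hp' (hpT n) hne) hy' (hyp n)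
    rw [← this]
    exact hg
  -- nested closed subsets of the fibre
  have hmono : ∀ n, closure (p (n + 1)).2 ⊆ closure (p n).2 := fun n =>
    ((hstep n).2.2.2.2.2.trans inter_subset_left).trans subset_closure
  have hne : ∀ n, (f ⁻¹' {y} ∩ closure (p n).2).Nonempty := by
    intro n
    obtain ⟨x, hx, hxy⟩ := (hprop n _ (hpT n)).2.2 (hyp n)
    exact ⟨x, hxy, subset_closure hx⟩
  have hanti : Antitone fun n => closure (p n).2 := antitone_nat_of_succ_le hmono
  obtain ⟨x, hxy, hx⟩ := (hc y).inter_iInter_nonempty (fun n => closure (p n).2)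
    (fun n => isClosed_closure) (by
      intro s
      obtain ⟨N, hN⟩ := s.exists_le
      refine (hne N).mono ?_
      refine inter_subset_inter_right _ ?_
      exact subset_iInter₂ fun i hi => hanti (hN i hi))
  have hx' : ∀ n, x ∈ closure (p n).2 := fun n => mem_iInter.1 hx n
  refine ⟨x, ?_, mem_iInter.2 fun n => ((hstep n).2.2.2.2.2 (hx' (n + 1))).2⟩
  have h0 : p 0 = (f '' W, W) := by
    have := hpT 0
    rw [hT0, mem_singleton_iff] at this
    exact this
  have h1 := ((hstep 0).2.2.2.2.2 (hx' 1)).1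
  rw [h0] at h1
  exact h1

/-- Let `G` be a topological group (no separation axiom) and `K` a compact subgroup of `G`, normal
or not, such that the quotient space `G ⧸ K` is a Baire space. Then `G` is a Baire space. -/
theorem result (G : Type u) [Group G] [TopologicalSpace G] [IsTopologicalGroup G]
    (K : Subgroup G) (hK : IsCompact (K : Set G)) (hB : BaireSpace (G ⧸ K)) : BaireSpace G := by
  refine baire_of_fibres (f := (QuotientGroup.mk : G → G ⧸ K)) QuotientGroup.continuous_mk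
    QuotientGroup.isOpenMap_coe fun y => ?_
  obtain ⟨g, rfl⟩ := QuotientGroup.mk_surjective y
  have : (QuotientGroup.mk ⁻¹' {(QuotientGroup.mk g : G ⧸ K)} : Set G) =
      (fun k => g * k) '' (K : Set G) := by
    ext x
    simp only [mem_preimage, mem_singleton_iff, mem_image, SetLike.mem_coe]
    constructor
    · intro h
      refine ⟨g⁻¹ * x, QuotientGroup.eq.1 h.symm, by group⟩
    · rintro ⟨k, hk, rfl⟩
      exact (QuotientGroup.eq.2 (by simpa using hk)).symm
  rw [this]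
  exact hK.image (continuous_const_mul g)

end Pool.Agent.Results.MP_0c5bac_gt.Baire
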